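import Mathlib
import Pool.Agent.Lib.H8.Wind

set_option autoImplicit false

namespace Pool.Agent.Results.MP_563419_an.Swap

open MvPolynomial

theorem result :
    LieSubalgebra.lieSpan ℂ (Derivation ℂ (MvPolynomial (Fin 2) ℂ) (MvPolynomial (Fin 2) ℂ))
      {D | ∃ (Θ : Derivation ℂ (MvPolynomial (Fin 2) ℂ) (MvPolynomial (Fin 2) ℂ))
        (f : MvPolynomial (Fin 2) ℂ),
        (∀ g, ∃ k, 1 ≤ k ∧ Θ^[k] g = 0) ∧ Θ (Θ f) = 0 ∧ D = f • Θ} = ⊤ ∧
    ∃ (q : MvPolynomial (Fin 2) ℂ) (P : Fin 2 → MvPolynomial (Fin 2) ℂ),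
      (∀ z : Fin 2 → ℂ, eval z q = 0 → eval (fun i => eval z (P i)) q = 0 ∧
        (fun j => eval (fun i => eval z (P i)) (P j)) = z) ∧
      ¬ ∃ Φ : (Fin 2 → ℂ) → (Fin 2 → ℂ), Differentiable ℂ Φ ∧ Function.Injective Φ ∧
        ∀ z : Fin 2 → ℂ, eval z q = 0 → Φ z = fun i => eval z (P i) := by
  refine ⟨Pool.Agent.Lib.H8.Wind.density, X 0 * (X 0 * X 1 - 1),
    ![(1 - X 0 * X 1) * X 0 + X 0 * X 1 * X 1, (1 - X 0 * X 1) * X 1 + X 0 * X 1 * X 0],
    fun z hz => ?_, ?_⟩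
  · simp only [map_mul, map_sub, eval_X, map_one, mul_eq_zero, sub_eq_zero] at hz
    rcases hz with h | h
    · refine ⟨by simp [h], ?_⟩
      ext j
      fin_cases j <;> simp [h]
    · have h' : z 1 * z 0 = 1 := by rw [mul_comm, h]
      refine ⟨by simp [h, h'], ?_⟩
      ext j
      fin_cases j <;> simp [h, h']
  · rintro ⟨Φ, hΦ, hi, h⟩
    refine Pool.Agent.Lib.H8.Wind.obstruction (fun p => Φ ![p.1, p.2] 0)
      ((differentiable_pi.1 hΦ 0).comp (differentiable_pi.2 fun i => ?_)) (fun p hp h0 => ?_)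
      fun t ht => ?_
    · fin_cases i
      · exact differentiable_fst
      · exact differentiable_snd
    · have h1 := h ![0, Φ ![p.1, p.2] 1] (by simp)
      have h2 : Φ ![p.1, p.2] = Φ ![0, Φ ![p.1, p.2] 1] := by
        rw [h1]
        ext j
        fin_cases j
        · simpa using h0
        · simp
      exact hp (congrFun (hi h2) 0)
    · have h1 := h ![t, t⁻¹] (by simp [ht])
      simp [h1, ht]

end Pool.Agent.Results.MP_563419_an.Swap
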